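import Pool.Agent.H902R3.XI.Stmts

set_option autoImplicit false

/-!
# Task N1 of the XI project (helper875): `X` is entire, comparison of the counting functions
-/

open Complex MeasureTheory Filter Topology Set Metric
open scoped Real ENNReal

namespace Pool.Agent.H875R3.XI

open Pool.Agent.H902R3.XI

/-- the terms of the series for `Phi` -/
noncomputable def trm (n : ℕ) (t : ℝ) : ℝ :=
  (2 * π ^ 2 * ((n : ℝ) + 1) ^ 4 * Real.exp (9 * t / 2)
    - 3 * π * ((n : ℝ) + 1) ^ 2 * Real.exp (5 * t / 2)) *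
      Real.exp (-π * ((n : ℝ) + 1) ^ 2 * Real.exp (2 * t))

theorem Phi_eq (t : ℝ) : Phi t = 2 * ∑' n : ℕ, trm n t := rfl

theorem trm_bound (n : ℕ) (t : ℝ) : ‖trm n t‖ ≤ 18 * Real.exp (-(3 * t / 2)) * (1 / ((n : ℝ) + 1) ^ 2) := by
  obtain ⟨x, hx⟩ : ∃ x : ℝ, x = π * ((n : ℝ) + 1) ^ 2 * Real.exp (2 * t) := ⟨_, rfl⟩
  have hn : (0 : ℝ) < (n : ℝ) + 1 := by positivity
  have hx0 : 0 < x := by rw [hx]; positivity
  have e9 : Real.exp (9 * t / 2) = Real.exp (t / 2) * (Real.exp (2 * t)) ^ 2 := by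
    rw [← Real.exp_nat_mul, ← Real.exp_add]; congr 1; push_cast; ring
  have e5 : Real.exp (5 * t / 2) = Real.exp (t / 2) * Real.exp (2 * t) := by
    rw [← Real.exp_add]; congr 1; ring
  have h1 : trm n t = Real.exp (t / 2) * (2 * x ^ 2 - 3 * x) * Real.exp (-x) := by
    unfold trm
    rw [e9, e5, hx, show -π * ((n : ℝ) + 1) ^ 2 * Real.exp (2 * t) =
      -(π * ((n : ℝ) + 1) ^ 2 * Real.exp (2 * t)) by ring]
    ring
  have h2 : x ^ 2 ≤ 2 * Real.exp x := by
    have := Real.pow_div_factorial_le_exp x hx0.le 2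
    norm_num [Nat.factorial] at this
    linarith
  have h3 : x ^ 3 ≤ 6 * Real.exp x := by
    have := Real.pow_div_factorial_le_exp x hx0.le 3
    norm_num [Nat.factorial] at this
    linarith
  have h4 : Real.exp (-x) * Real.exp x = 1 := by rw [← Real.exp_add]; simp
  have h5 : (2 * x ^ 3 + 3 * x ^ 2) * Real.exp (-x) ≤ 18 := by
    have h6 : 2 * x ^ 3 + 3 * x ^ 2 ≤ 18 * Real.exp x := by linarith
    calc (2 * x ^ 3 + 3 * x ^ 2) * Real.exp (-x) ≤ 18 * Real.exp x * Real.exp (-x) :=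
          mul_le_mul_of_nonneg_right h6 (Real.exp_pos _).le
      _ = 18 * (Real.exp (-x) * Real.exp x) := by ring
      _ = 18 := by rw [h4]; ring
  have h7 : |2 * x ^ 2 - 3 * x| ≤ 2 * x ^ 2 + 3 * x := by
    rw [abs_le]
    constructor <;> nlinarith
  have h8 : ‖trm n t‖ ≤ Real.exp (t / 2) * (18 / x) := by
    rw [h1, Real.norm_eq_abs, abs_mul, abs_mul, abs_of_pos (Real.exp_pos _),
      abs_of_pos (Real.exp_pos _), mul_assoc]
    refine mul_le_mul_of_nonneg_left ?_ (Real.exp_pos _).le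
    rw [le_div_iff₀ hx0]
    calc |2 * x ^ 2 - 3 * x| * Real.exp (-x) * x ≤ (2 * x ^ 2 + 3 * x) * Real.exp (-x) * x := by
          gcongr
      _ = (2 * x ^ 3 + 3 * x ^ 2) * Real.exp (-x) := by ring
      _ ≤ 18 := h5
  refine h8.trans ?_
  have h9 : ((n : ℝ) + 1) ^ 2 * Real.exp (2 * t) ≤ x := by
    rw [hx]
    have hpi : (1 : ℝ) ≤ π := by linarith [Real.pi_gt_three]
    have h10 : 0 ≤ ((n : ℝ) + 1) ^ 2 * Real.exp (2 * t) := by positivity
    nlinarith
  have h11 : 18 / x ≤ 18 / (((n : ℝ) + 1) ^ 2 * Real.exp (2 * t)) :=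
    div_le_div_of_nonneg_left (by norm_num) (by positivity) h9
  calc Real.exp (t / 2) * (18 / x)
      ≤ Real.exp (t / 2) * (18 / (((n : ℝ) + 1) ^ 2 * Real.exp (2 * t))) :=
        mul_le_mul_of_nonneg_left h11 (Real.exp_pos _).le
    _ = 18 * Real.exp (-(3 * t / 2)) * (1 / ((n : ℝ) + 1) ^ 2) := by
        have h12 : Real.exp (t / 2) = Real.exp (-(3 * t / 2)) * Real.exp (2 * t) := by
          rw [← Real.exp_add]; congr 1; ring
        rw [h12]
        have h13 : Real.exp (2 * t) ≠ 0 := (Real.exp_pos _).ne'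
        field_simp

theorem summable_sq : Summable (fun n : ℕ => 1 / ((n : ℝ) + 1) ^ 2) := by
  have h := (summable_nat_add_iff 1).2 (Real.summable_one_div_nat_pow.2 (one_lt_two))
  simpa using h

theorem trm_summable (t : ℝ) : Summable (fun n => trm n t) :=
  Summable.of_norm_bounded (summable_sq.mul_left _) (fun n => trm_bound n t)

/-- the constant -/
noncomputable def C1 : ℝ := 36 * ∑' n : ℕ, 1 / ((n : ℝ) + 1) ^ 2

theorem C1_nonneg : 0 ≤ C1 := by
  unfold C1
  have : 0 ≤ ∑' n : ℕ, 1 / ((n : ℝ) + 1) ^ 2 := tsum_nonneg fun n => by positivity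
  positivity

theorem Phi_bound (t : ℝ) : |Phi t| ≤ C1 * Real.exp (-(3 * t / 2)) := by
  rw [Phi_eq, abs_mul, abs_of_pos (by norm_num : (0 : ℝ) < 2)]
  have h := tsum_of_norm_bounded
    ((summable_sq.mul_left (18 * Real.exp (-(3 * t / 2)))).hasSum) (fun n => trm_bound n t)
  rw [tsum_mul_left, Real.norm_eq_abs] at h
  unfold C1
  calc 2 * |∑' n : ℕ, trm n t|
      ≤ 2 * (18 * Real.exp (-(3 * t / 2)) * ∑' n : ℕ, 1 / ((n : ℝ) + 1) ^ 2) := by gcongr
    _ = _ := by ring

theorem measurable_Phi : Measurable Phi := by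
  have h : Measurable (fun t => ∑' n : ℕ, trm n t) := by
    refine measurable_of_tendsto_metrizable (f := fun N t => ∑ n ∈ Finset.range N, trm n t) ?_ ?_
    · intro N
      refine Finset.measurable_sum _ fun n _ => ?_
      unfold trm
      fun_prop
    · rw [tendsto_pi_nhds]
      intro t
      exact (trm_summable t).hasSum.tendsto_sum_nat
  exact h.const_mul 2

theorem integrable_gauss {τ : ℝ} (hτ : 0 < τ) (M : ℝ) :
    Integrable (fun t : ℝ => Real.exp (-τ * t ^ 2 + M * t)) := by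
  have h := (integrable_cexp_quadratic (b := (τ : ℂ)) (by simpa using hτ) (M : ℂ) 0).norm
  refine h.congr (Eventually.of_forall fun t => ?_)
  simp only [Complex.norm_exp]
  congr 1
  simp [pow_two]

/-- the kernel -/
noncomputable def kr (τ t : ℝ) : ℝ := Phi t * Real.exp (-τ * t ^ 2)

theorem measurable_kr (τ : ℝ) : Measurable (kr τ) := by
  unfold kr
  exact measurable_Phi.mul (by fun_prop)

theorem kr_bound (τ t : ℝ) : |kr τ t| ≤ C1 * Real.exp (-(3 * t / 2)) * Real.exp (-τ * t ^ 2) := by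
  unfold kr
  rw [abs_mul, abs_of_pos (Real.exp_pos _)]
  exact mul_le_mul_of_nonneg_right (Phi_bound t) (Real.exp_pos _).le

theorem norm_cexp_mul (s : ℂ) (t : ℝ) : ‖cexp ((s - 1 / 2) * t)‖ = Real.exp ((s.re - 1 / 2) * t) := by
  rw [Complex.norm_exp]
  congr 1
  simp

theorem exp_abs_le (M t : ℝ) : Real.exp (M * |t|) ≤ Real.exp (M * t) + Real.exp (-M * t) := by
  rcases abs_cases t with ⟨h, _⟩ | ⟨h, _⟩ <;> rw [h]
  · linarith [Real.exp_pos (-M * t)]
  · rw [mul_neg, ← neg_mul]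
    linarith [Real.exp_pos (M * t)]

theorem dominated (τ M t : ℝ) (s : ℂ) (hM : |s.re - 1 / 2| + 5 / 2 ≤ M) :
    (1 + |t|) * ‖((kr τ t : ℝ) : ℂ) * cexp ((s - 1 / 2) * t)‖ ≤
      C1 * (Real.exp (-τ * t ^ 2 + M * t) + Real.exp (-τ * t ^ 2 + (-M) * t)) := by
  rw [norm_mul, norm_cexp_mul, Complex.norm_real, Real.norm_eq_abs]
  have h1 := kr_bound τ t
  have h2 : 1 + |t| ≤ Real.exp |t| := by
    have := Real.add_one_le_exp |t|
    linarith
  have h3 : Real.exp (-(3 * t / 2)) ≤ Real.exp (3 / 2 * |t|) := by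
    apply Real.exp_le_exp.2
    have := neg_abs_le t
    linarith
  have h4 : Real.exp ((s.re - 1 / 2) * t) ≤ Real.exp (|s.re - 1 / 2| * |t|) := by
    apply Real.exp_le_exp.2
    rw [← abs_mul]
    exact le_abs_self _
  have hC := C1_nonneg
  calc (1 + |t|) * (|kr τ t| * Real.exp ((s.re - 1 / 2) * t))
      ≤ Real.exp |t| * ((C1 * Real.exp (3 / 2 * |t|) * Real.exp (-τ * t ^ 2)) *
          Real.exp (|s.re - 1 / 2| * |t|)) := by
        have h5 : |kr τ t| ≤ C1 * Real.exp (3 / 2 * |t|) * Real.exp (-τ * t ^ 2) :=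
          h1.trans (mul_le_mul_of_nonneg_right (mul_le_mul_of_nonneg_left h3 hC)
            (Real.exp_pos _).le)
        exact mul_le_mul h2 (mul_le_mul h5 h4 (Real.exp_pos _).le (by positivity)) (by positivity)
          (Real.exp_pos _).le
    _ = C1 * Real.exp (-τ * t ^ 2) * Real.exp ((|s.re - 1 / 2| + 5 / 2) * |t|) := by
        have : Real.exp ((|s.re - 1 / 2| + 5 / 2) * |t|) =
            Real.exp |t| * Real.exp (3 / 2 * |t|) * Real.exp (|s.re - 1 / 2| * |t|) := by
          rw [← Real.exp_add, ← Real.exp_add]; congr 1; ring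
        rw [this]
        ring
    _ ≤ C1 * Real.exp (-τ * t ^ 2) * Real.exp (M * |t|) := by
        refine mul_le_mul_of_nonneg_left (Real.exp_le_exp.2 ?_) (by positivity)
        exact mul_le_mul_of_nonneg_right hM (abs_nonneg _)
    _ ≤ C1 * Real.exp (-τ * t ^ 2) * (Real.exp (M * t) + Real.exp (-M * t)) :=
        mul_le_mul_of_nonneg_left (exp_abs_le M t) (by positivity)
    _ = _ := by
        rw [Real.exp_add, Real.exp_add]; ring

theorem hasDerivAt_X {τ : ℝ} (hτ : 0 < τ) (s₀ : ℂ) : DifferentiableAt ℂ (X τ) s₀ := by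
  set M : ℝ := |s₀.re - 1 / 2| + 7 / 2 with hMdef
  have hMs : ∀ s ∈ Metric.ball s₀ 1, |s.re - 1 / 2| + 5 / 2 ≤ M := by
    intro s hs
    rw [Metric.mem_ball, dist_eq_norm] at hs
    have h1 : |s.re - s₀.re| ≤ ‖s - s₀‖ := by
      have := Complex.abs_re_le_norm (s - s₀)
      simpa using this
    have h2 : |s.re - 1 / 2| ≤ |s.re - s₀.re| + |s₀.re - 1 / 2| := abs_sub_le _ _ _
    rw [hMdef]
    linarith
  have hmeas : ∀ s : ℂ, AEStronglyMeasurable
      (fun t : ℝ => ((kr τ t : ℝ) : ℂ) * cexp ((s - 1 / 2) * t)) volume := by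
    intro s
    refine AEStronglyMeasurable.mul ?_ ?_
    · exact (Complex.measurable_ofReal.comp (measurable_kr τ)).aestronglyMeasurable
    · exact (Continuous.aestronglyMeasurable (by fun_prop))
  have hbi : Integrable (fun t : ℝ => C1 * (Real.exp (-τ * t ^ 2 + M * t) +
      Real.exp (-τ * t ^ 2 + (-M) * t))) :=
    ((integrable_gauss hτ M).add (integrable_gauss hτ (-M))).const_mul C1
  have hint : Integrable (fun t : ℝ => ((kr τ t : ℝ) : ℂ) * cexp ((s₀ - 1 / 2) * t)) := by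
    refine hbi.mono' (hmeas s₀) (Eventually.of_forall fun t => ?_)
    have h1 := dominated τ M t s₀ (hMs s₀ (Metric.mem_ball_self one_pos))
    have h2 : ‖((kr τ t : ℝ) : ℂ) * cexp ((s₀ - 1 / 2) * t)‖ ≤
        (1 + |t|) * ‖((kr τ t : ℝ) : ℂ) * cexp ((s₀ - 1 / 2) * t)‖ := by
      have h3 : 0 ≤ |t| * ‖((kr τ t : ℝ) : ℂ) * cexp ((s₀ - 1 / 2) * t)‖ := by positivity
      linarith
    exact h2.trans h1
  have h := hasDerivAt_integral_of_dominated_loc_of_deriv_le (𝕜 := ℂ) (μ := volume)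
    (F := fun (s : ℂ) (t : ℝ) => ((kr τ t : ℝ) : ℂ) * cexp ((s - 1 / 2) * t))
    (F' := fun (s : ℂ) (t : ℝ) => ((kr τ t : ℝ) : ℂ) * (cexp ((s - 1 / 2) * t) * t))
    (x₀ := s₀) (s := Metric.ball s₀ 1)
    (bound := fun t : ℝ => C1 * (Real.exp (-τ * t ^ 2 + M * t) +
      Real.exp (-τ * t ^ 2 + (-M) * t)))
    (Metric.ball_mem_nhds s₀ one_pos) (Eventually.of_forall hmeas) hint ?_ ?_ hbi ?_
  · exact h.2.differentiableAt
  · have h1 : (fun t : ℝ => ((kr τ t : ℝ) : ℂ) * (cexp ((s₀ - 1 / 2) * t) * t)) =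
        fun t : ℝ => (((kr τ t : ℝ) : ℂ) * cexp ((s₀ - 1 / 2) * t)) * t := by
      funext t; ring
    rw [h1]
    exact (hmeas s₀).mul (Continuous.aestronglyMeasurable (by fun_prop))
  · refine Eventually.of_forall fun t s hs => ?_
    have h1 := dominated τ M t s (hMs s hs)
    refine le_trans ?_ h1
    rw [← mul_assoc, norm_mul (_ * _), Complex.norm_real, Real.norm_eq_abs, mul_comm]
    have h3 : 0 ≤ ‖((kr τ t : ℝ) : ℂ) * cexp ((s - 1 / 2) * t)‖ := norm_nonneg _
    nlinarith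
  · refine Eventually.of_forall fun t s _ => ?_
    have h1 : HasDerivAt (fun s : ℂ => (s - 1 / 2) * (t : ℂ)) (t : ℂ) s := by
      simpa using ((hasDerivAt_id s).sub_const (1 / 2 : ℂ)).mul_const (t : ℂ)
    exact (h1.cexp).const_mul _

theorem differentiable_X {τ : ℝ} (hτ : 0 < τ) : Differentiable ℂ (X τ) :=
  fun s => hasDerivAt_X hτ s

theorem ne_neg_nat {s : ℂ} (hs : 0 < s.im) (m : ℕ) : s ≠ -m := by
  intro h
  rw [h] at hs
  simp at hs

theorem E_diffOn (τ : ℝ) : DifferentiableOn ℂ (E τ) {s : ℂ | 0 < s.im} := by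
  intro s hs
  have hs' : 0 < s.im := hs
  apply DifferentiableAt.differentiableWithinAt
  have h2 : 0 < (s / 2).im := by
    have : (s / 2).im = s.im / 2 := by
      rw [show s / 2 = s / ((2 : ℝ) : ℂ) by norm_num, Complex.div_ofReal_im]
    rw [this]; linarith
  have hG : DifferentiableAt ℂ (fun z : ℂ => Gamma (z / 2)) s := by
    have h := Complex.differentiableAt_Gamma (s / 2) (ne_neg_nat h2)
    exact DifferentiableAt.comp s h (by fun_prop)
  have hpi : (π : ℂ) ≠ 0 := by exact_mod_cast Real.pi_ne_zero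
  have hp : DifferentiableAt ℂ (fun z : ℂ => (π : ℂ) ^ (-z / 2)) s :=
    DifferentiableAt.const_cpow (by fun_prop) (Or.inl hpi)
  have hg : DifferentiableAt ℂ g s := by
    unfold g
    exact (DifferentiableAt.mul (by fun_prop) hp).mul hG
  have hslit : s / (2 * π) ∈ slitPlane := by
    rw [Complex.mem_slitPlane_iff]
    right
    have : (s / (2 * π)).im = s.im / (2 * π) := by
      rw [show (2 * (π : ℂ)) = ((2 * π : ℝ) : ℂ) by push_cast; ring, Complex.div_ofReal_im]
    rw [this]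
    have := Real.pi_pos
    positivity
  have ha : DifferentiableAt ℂ a s := by
    unfold a
    exact (DifferentiableAt.clog (differentiableAt_id.div_const _) hslit).div_const 2
  unfold E
  exact hg.mul (DifferentiableAt.cexp ((ha.pow 2).const_mul _))

theorem upper_open : IsOpen {s : ℂ | 0 < s.im} := isOpen_lt continuous_const Complex.continuous_im

theorem E_analytic (τ : ℝ) {s : ℂ} (hs : 0 < s.im) : AnalyticAt ℂ (E τ) s :=
  (E_diffOn τ).analyticAt (upper_open.mem_nhds hs)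

theorem E_ne_zero (τ : ℝ) {s : ℂ} (hs : 0 < s.im) : E τ s ≠ 0 := by
  unfold E g
  have h0 : s ≠ 0 := by rintro rfl; simp at hs
  have h1 : s - 1 ≠ 0 := by
    intro h
    have : s = 1 := by linear_combination h
    rw [this] at hs
    simp at hs
  have h2 : 0 < (s / 2).im := by
    have : (s / 2).im = s.im / 2 := by
      rw [show s / 2 = s / ((2 : ℝ) : ℂ) by norm_num, Complex.div_ofReal_im]
    rw [this]; linarith
  have hG := Complex.Gamma_ne_zero (ne_neg_nat h2)
  have hpi : (π : ℂ) ≠ 0 := by exact_mod_cast Real.pi_ne_zero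
  have hp : (π : ℂ) ^ (-s / 2) ≠ 0 := by
    rw [Ne, Complex.cpow_eq_zero_iff]
    exact fun h => hpi h.1
  exact mul_ne_zero (mul_ne_zero (mul_ne_zero (div_ne_zero (mul_ne_zero h0 h1) two_ne_zero) hp) hG)
    (Complex.exp_ne_zero _)

theorem order_div (τ : ℝ) (hτ : 0 < τ) {s : ℂ} (hs : 0 < s.im) :
    analyticOrderAt (fun s => X τ s / E τ s) s = analyticOrderAt (X τ) s := by
  have hE := E_analytic τ hs
  have hE0 := E_ne_zero τ hs
  have hX : AnalyticAt ℂ (X τ) s := (differentiable_X hτ).analyticAt s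
  have hq : AnalyticAt ℂ (fun s => X τ s / E τ s) s := hX.div hE hE0
  have h1 : X τ =ᶠ[𝓝 s] (fun s => X τ s / E τ s) * E τ := by
    filter_upwards [upper_open.mem_nhds hs] with z hz
    simp only [Pi.mul_apply]
    rw [div_mul_cancel₀ _ (E_ne_zero τ hz)]
  rw [analyticOrderAt_congr h1, analyticOrderAt_mul hq hE,
    hE.analyticOrderAt_eq_zero.2 hE0, add_zero]

theorem Xi_eq (τ : ℝ) : Xi (-τ) = X τ ∘ (fun z : ℂ => 1 / 2 + I * z) := by
  funext z
  unfold Xi X
  simp only [Function.comp_apply]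
  congr 1
  funext t
  congr 2
  ring

theorem taskN1 : TaskN1 := by
  intro τ hτ
  refine ⟨differentiable_X hτ, fun s hs => ⟨E_analytic τ hs, E_ne_zero τ hs⟩, fun S hS => ?_,
    fun S => ?_⟩
  · unfold cnt
    congr 1
    funext z
    rw [order_div τ hτ (hS z z.2)]
  · have hinj : Function.Injective (fun z : ℂ => 1 / 2 + I * z) := by
      intro x y h
      simp only at h
      have h2 : I * x = I * y := by linear_combination h
      exact mul_left_cancel₀ I_ne_zero h2
    have hord : ∀ z : ℂ, analyticOrderAt (Xi (-τ)) z = analyticOrderAt (X τ) (1 / 2 + I * z) := by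
      intro z
      rw [Xi_eq]
      have hg : AnalyticAt ℂ (fun z : ℂ => 1 / 2 + I * z) z := by fun_prop
      have hd : HasDerivAt (fun z : ℂ => 1 / 2 + I * z) I z := by
        simpa using ((hasDerivAt_id z).const_mul I).const_add (1 / 2 : ℂ)
      exact analyticOrderAt_comp_of_deriv_ne_zero (f := X τ) hg (by rw [hd.deriv]; exact I_ne_zero)
    unfold cnt
    rw [← (Equiv.Set.image (fun z : ℂ => 1 / 2 + I * z) S hinj).tsum_eq]
    congr 1
    funext z
    rw [hord z]
    rfl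

end Pool.Agent.H875R3.XI
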